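import Pool.Agent.TH173.SD.Final

/-! # Subsets with distinct distances of sets of reals: `f(k,1) ≤ (8 + o(1)) k²` -/

set_option autoImplicit false
open Finset

namespace Pool.Agent.Results.MP_be54a8_co.EightKSquared

/-- All distances between the points of `T` are different: two pairs of points of `T` (each
written with its smaller point first) at the same distance are the same pair. -/
def DistinctDistances (T : Finset ℝ) : Prop :=
  ∀ a ∈ T, ∀ b ∈ T, ∀ c ∈ T, ∀ d ∈ T, a < b → c < d → b - a = d - c → a = c ∧ b = d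

/-- `f(k,1)`: the least `N` such that every set of `N` reals has a `k`-element subset with
distinct distances. -/
noncomputable def f (k : ℕ) : ℕ :=
  sInf {N : ℕ | ∀ A : Finset ℝ, A.card = N →
    ∃ T : Finset ℝ, T ⊆ A ∧ T.card = k ∧ DistinctDistances T}

theorem distinct_of_sidon {T : Finset ℝ} (h : TH173.SD.Sidon T) : DistinctDistances T := by
  intro a ha b hb c hc d hd hab hcd he
  rcases h b hb c hc d hd a ha (by linarith) with ⟨h1, h2⟩ | ⟨h1, h2⟩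
  · exact ⟨h2.symm, h1⟩
  · exact absurd h1 (ne_of_gt hab)

theorem f_le {k : ℕ} {B : ℝ} (hB : 0 ≤ B) (h : ∀ A : Finset ℝ, B ≤ (A.card : ℝ) →
    ∃ T : Finset ℝ, T ⊆ A ∧ T.card = k ∧ DistinctDistances T) : (f k : ℝ) ≤ B + 1 := by
  have h1 : f k ≤ ⌈B⌉₊ := by
    apply Nat.sInf_le
    intro A hA
    exact h A (by rw [hA]; exact Nat.le_ceil _)
  calc (f k : ℝ) ≤ (⌈B⌉₊ : ℝ) := by exact_mod_cast h1
    _ ≤ B + 1 := (Nat.ceil_lt_add_one hB).le

/-- (1) For every `ε > 0` and every large `k`, every set of at least `(8 + ε) k²` reals has a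
`k`-element subset with distinct distances, and `f(k,1) ≤ (8 + ε) k²`.
(2) For every `ε > 0` there are infinitely many `k` such that every set of at least
`(27/4 + ε) k²` reals has a `k`-element subset with distinct distances, and
`f(k,1) ≤ (27/4 + ε) k²` for these `k`. -/
theorem result :
    (∀ ε : ℝ, 0 < ε → ∃ k₀ : ℕ, ∀ k : ℕ, k₀ ≤ k →
      (∀ A : Finset ℝ, (8 + ε) * (k : ℝ) ^ 2 ≤ (A.card : ℝ) →
        ∃ T : Finset ℝ, T ⊆ A ∧ T.card = k ∧ DistinctDistances T) ∧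
      (f k : ℝ) ≤ (8 + ε) * (k : ℝ) ^ 2) ∧
    (∀ ε : ℝ, 0 < ε → ∀ k₁ : ℕ, ∃ k : ℕ, k₁ ≤ k ∧
      (∀ A : Finset ℝ, (27 / 4 + ε) * (k : ℝ) ^ 2 ≤ (A.card : ℝ) →
        ∃ T : Finset ℝ, T ⊆ A ∧ T.card = k ∧ DistinctDistances T) ∧
      (f k : ℝ) ≤ (27 / 4 + ε) * (k : ℝ) ^ 2) := by
  have aux : ∀ (C ε : ℝ), 0 < C → 0 < ε → ∀ k : ℕ, 2 / ε ≤ (k : ℝ) → 1 ≤ (k : ℝ) →
      (∀ A : Finset ℝ, (C + ε / 2) * (k : ℝ) ^ 2 ≤ (A.card : ℝ) →
        ∃ T : Finset ℝ, T ⊆ A ∧ T.card = k ∧ TH173.SD.Sidon T) →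
      (∀ A : Finset ℝ, (C + ε) * (k : ℝ) ^ 2 ≤ (A.card : ℝ) →
        ∃ T : Finset ℝ, T ⊆ A ∧ T.card = k ∧ DistinctDistances T) ∧
      (f k : ℝ) ≤ (C + ε) * (k : ℝ) ^ 2 := by
    intro C ε hC hε k hk hk1 h
    have hk2 : 0 ≤ (k : ℝ) ^ 2 := by positivity
    have h' : ∀ A : Finset ℝ, (C + ε / 2) * (k : ℝ) ^ 2 ≤ (A.card : ℝ) →
        ∃ T : Finset ℝ, T ⊆ A ∧ T.card = k ∧ DistinctDistances T := by
      intro A hA
      obtain ⟨T, h1, h2, h3⟩ := h A hA
      exact ⟨T, h1, h2, distinct_of_sidon h3⟩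
    constructor
    · intro A hA
      apply h' A
      nlinarith
    · have h1 := f_le (by positivity) h'
      rw [div_le_iff₀ hε] at hk
      have h3 : 2 ≤ ε * (k : ℝ) ^ 2 := by nlinarith
      nlinarith
  constructor
  · intro ε hε
    obtain ⟨k₀, h⟩ := TH173.SD.main8 (ε / 2) (by positivity)
    refine ⟨max k₀ (max 1 ⌈2 / ε⌉₊), fun k hk => ?_⟩
    have h1 : k₀ ≤ k := (le_max_left _ _).trans hk
    have h2 : 1 ≤ k := (le_max_left _ _).trans ((le_max_right _ _).trans hk)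
    have h3 : ⌈2 / ε⌉₊ ≤ k := (le_max_right _ _).trans ((le_max_right _ _).trans hk)
    exact aux 8 ε (by norm_num) hε k (Nat.ceil_le.1 h3) (by exact_mod_cast h2) (h k h1)
  · intro ε hε k₁
    obtain ⟨k, hk, h⟩ := TH173.SD.main27 (ε / 2) (by positivity) (max k₁ (max 1 ⌈2 / ε⌉₊))
    have h1 : k₁ ≤ k := (le_max_left _ _).trans hk
    have h2 : 1 ≤ k := (le_max_left _ _).trans ((le_max_right _ _).trans hk)
    have h3 : ⌈2 / ε⌉₊ ≤ k := (le_max_right _ _).trans ((le_max_right _ _).trans hk)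
    exact ⟨k, h1, aux (27 / 4) ε (by norm_num) hε k (Nat.ceil_le.1 h3) (by exact_mod_cast h2) h⟩

end Pool.Agent.Results.MP_be54a8_co.EightKSquared
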